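import Pool.Agent.TH966.CF.Count
import Pool.Agent.TH966.CF.Two
import Pool.Agent.Helper20K9.UL.Stm2

/-!
Project UL, part 2: [MCL], the many-point bound for the large clusters in the limit.
-/

set_option autoImplicit false
set_option maxHeartbeats 1000000

namespace Pool.Agent.Helper77K9.UL

open H974 H934E Pool.Agent.H160R2.CV MeasureTheory TopologicalSpace Filter Topology Metric Set
open Pool.Agent.H389R2.Dim Pool.Agent.H389R2.CD Pool.Agent.H389R2.CL
open Pool.Agent.H160R2.CV.Quad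
open Pool.Agent.TH966.CF
open Pool.Agent.Helper20K9.UL (MPa)
open scoped ENNReal NNReal

/-- Clusters which meet a square and leave a larger one cross a lattice annulus. -/
theorem cross_det' (R : Rect) (z : ℂ) (ρ s δ : ℝ) (hs : 0 < s)
    (hsρ : 16 * s ≤ ρ) (hD : csq z ρ ⊆ R.D) (hδ : 0 < δ) (hδs : 16 * δ ≤ s) :
    ∃ (c : Vtx) (r n : ℕ), c = (⌊z.re / δ⌋, ⌊z.im / δ⌋ - 1) ∧ (n : ℝ) ≤ ρ / δ ∧ 1 ≤ r ∧
      3 * r ≤ n ∧ (r : ℝ) / n ≤ 4 * (s / ρ) ∧
      ∀ (F : Finset Edg) (v v' : Vtx) (w w' : ℂ), w ∈ sq z s → w' ∈ (csq z ρ)ᶜ →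
      (|w.re - (pt δ v).re| ≤ δ ∧ |w.im - (pt δ v).im| ≤ δ) →
      (|w'.re - (pt δ v').re| ≤ δ ∧ |w'.im - (pt δ v').im| ≤ δ) →
      Reach (↑F ∪ R.wired δ) v v' → Ex1 c r n F := by
  have hρ : 0 < ρ := by linarith
  -- the square is inside the rectangle
  have m1 : (⟨z.re - ρ, z.im⟩ : ℂ) ∈ R.D := hD (by
    unfold csq
    simp only [Set.mem_ofPred_eq]
    constructor
    · rw [show z.re - ρ - z.re = -ρ by ring, abs_neg, abs_of_pos hρ]
    · rw [sub_self, abs_zero]; exact hρ.le)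
  have m2 : (⟨z.re + ρ, z.im⟩ : ℂ) ∈ R.D := hD (by
    unfold csq
    simp only [Set.mem_ofPred_eq]
    constructor
    · rw [show z.re + ρ - z.re = ρ by ring, abs_of_pos hρ]
    · rw [sub_self, abs_zero]; exact hρ.le)
  have m3 : (⟨z.re, z.im - ρ⟩ : ℂ) ∈ R.D := hD (by
    unfold csq
    simp only [Set.mem_ofPred_eq]
    constructor
    · rw [sub_self, abs_zero]; exact hρ.le
    · rw [show z.im - ρ - z.im = -ρ by ring, abs_neg, abs_of_pos hρ])
  have m4 : (⟨z.re, z.im + ρ⟩ : ℂ) ∈ R.D := hD (by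
    unfold csq
    simp only [Set.mem_ofPred_eq]
    constructor
    · rw [sub_self, abs_zero]; exact hρ.le
    · rw [show z.im + ρ - z.im = ρ by ring, abs_of_pos hρ])
  unfold Rect.D at m1 m2 m3 m4
  simp only [Set.mem_ofPred_eq] at m1 m2 m3 m4
  have h1 : ρ ≤ z.re + R.A := by obtain ⟨_, _, _⟩ := m1; linarith
  have h2 : ρ ≤ z.im := by obtain ⟨_, _, _⟩ := m3; linarith
  have h3 : ρ ≤ R.H - z.im := by obtain ⟨_, _, _⟩ := m4; linarith
  have h4 : ρ ≤ R.B - z.re := by obtain ⟨_, _, _⟩ := m2; linarith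
  set c : Vtx := (⌊z.re / δ⌋, ⌊z.im / δ⌋ - 1) with hc
  set r : ℕ := ⌈s / δ⌉₊ + 2 with hr
  set n : ℕ := ⌊ρ / δ⌋₊ - 3 with hn
  have q1 : 16 ≤ s / δ := by rw [le_div_iff₀ hδ]; exact hδs
  have q2 : 16 * (s / δ) ≤ ρ / δ := by
    rw [← mul_div_assoc]; exact div_le_div_of_nonneg_right hsρ hδ.le
  have r1 : (⌈s / δ⌉₊ : ℝ) < s / δ + 1 := Nat.ceil_lt_add_one (by positivity)
  have r2 : s / δ ≤ (⌈s / δ⌉₊ : ℝ) := Nat.le_ceil _
  have n1 : (⌊ρ / δ⌋₊ : ℝ) ≤ ρ / δ := Nat.floor_le (by positivity)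
  have n2 : ρ / δ < (⌊ρ / δ⌋₊ : ℝ) + 1 := Nat.lt_floor_add_one _
  have hn3 : 3 ≤ ⌊ρ / δ⌋₊ := by
    rw [Nat.le_floor_iff (by positivity)]
    push_cast
    linarith
  have nR : (n : ℝ) = (⌊ρ / δ⌋₊ : ℝ) - 3 := by rw [hn, Nat.cast_sub hn3]; norm_num
  have rR : (r : ℝ) = (⌈s / δ⌉₊ : ℝ) + 2 := by rw [hr]; push_cast; ring
  have hrn : 3 * r ≤ n := by
    have : ((3 * r : ℕ) : ℝ) ≤ (n : ℝ) := by
      push_cast
      rw [nR, rR]
      linarith
    exact_mod_cast this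
  have f1 : (⌊z.re / δ⌋ : ℝ) ≤ z.re / δ := Int.floor_le _
  have f2 : z.re / δ < (⌊z.re / δ⌋ : ℝ) + 1 := Int.lt_floor_add_one _
  have f3 : (⌊z.im / δ⌋ : ℝ) ≤ z.im / δ := Int.floor_le _
  have f4 : z.im / δ < (⌊z.im / δ⌋ : ℝ) + 1 := Int.lt_floor_add_one _
  have d1 : ρ / δ ≤ z.re / δ + R.A / δ := by
    rw [← add_div]; exact div_le_div_of_nonneg_right h1 hδ.le
  have d2 : ρ / δ ≤ z.im / δ := div_le_div_of_nonneg_right h2 hδ.le
  have d3 : ρ / δ ≤ R.H / δ - z.im / δ := by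
    rw [← sub_div]; exact div_le_div_of_nonneg_right h3 hδ.le
  -- the event
  have hev : ∀ (F : Finset Edg) (v v' : Vtx) (w w' : ℂ), w ∈ sq z s → w' ∈ (csq z ρ)ᶜ →
      (|w.re - (pt δ v).re| ≤ δ ∧ |w.im - (pt δ v).im| ≤ δ) →
      (|w'.re - (pt δ v').re| ≤ δ ∧ |w'.im - (pt δ v').im| ≤ δ) →
      Reach (↑F ∪ R.wired δ) v v' → Ex1 c r n F := by
    rintro F v v' w w' ⟨hw2, hw3⟩ hw2' ⟨hv1, hv2⟩ ⟨hv1', hv2'⟩ hreach
    unfold pt at hv1 hv2 hv1' hv2'
    simp only at hv1 hv2 hv1' hv2'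
    rw [abs_le] at hv1 hv2 hv1' hv2'
    rw [abs_lt] at hw2 hw3
    have g1 : δ * |(v.1 : ℝ) - z.re / δ| ≤ s + δ := by
      rw [← abs_of_pos hδ, ← abs_mul, abs_of_pos hδ, mul_sub, mul_div_cancel₀ _ hδ.ne', abs_le]
      constructor <;> linarith
    have g2 : δ * |(v.2 : ℝ) + 1 - z.im / δ| ≤ s + δ := by
      rw [← abs_of_pos hδ, ← abs_mul, abs_of_pos hδ, mul_sub, mul_div_cancel₀ _ hδ.ne', abs_le]
      constructor <;> linarith
    have g3 : |(v.1 : ℝ) - z.re / δ| ≤ s / δ + 1 := by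
      rw [show s / δ + 1 = (s + δ) / δ by field_simp, le_div_iff₀ hδ, mul_comm]; exact g1
    have g4 : |(v.2 : ℝ) + 1 - z.im / δ| ≤ s / δ + 1 := by
      rw [show s / δ + 1 = (s + δ) / δ by field_simp, le_div_iff₀ hδ, mul_comm]; exact g2
    rw [abs_le] at g3 g4
    refine Ex1_of_reach (A := R.wired δ) (v := v') (u := v) (by omega) ?_ ?_ ?_ hreach
    · -- wired edges are outside
      rintro ⟨x, y, b⟩ he hE
      unfold Rect.wired at he
      simp only [Set.mem_ofPred_eq] at he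
      have u1 : (c.1 : ℝ) - n ≥ -(R.A / δ) + 2 := by
        rw [nR, hc]; simp only; linarith
      have u2 : (c.2 : ℝ) - n ≥ 1 := by
        rw [nR, hc]; simp only; push_cast; linarith
      have u3 : (c.2 : ℝ) + n ≤ R.H / δ - 4 := by
        rw [nR, hc]; simp only; push_cast; linarith
      have hx0 : (R.x0 δ : ℝ) ≤ -(R.A / δ) + 1 := by
        unfold Rect.x0
        push_cast
        linarith [Int.floor_le (-(R.A / δ))]
      have hy1 : R.H / δ - 2 ≤ (R.y1 δ : ℝ) := by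
        unfold Rect.y1
        push_cast
        linarith [Int.le_ceil (R.H / δ)]
      have v1 : R.x0 δ < c.1 - n := by
        have : (R.x0 δ : ℝ) < ((c.1 - n : ℤ) : ℝ) := by push_cast; linarith
        exact_mod_cast this
      have v2 : 0 < c.2 - n := by
        have : (0 : ℝ) < ((c.2 - n : ℤ) : ℝ) := by push_cast; linarith
        exact_mod_cast this
      have v3 : c.2 + n < R.y1 δ := by
        have : ((c.2 + n : ℤ) : ℝ) < (R.y1 δ : ℝ) := by push_cast; linarith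
        exact_mod_cast this
      cases b
      · rw [mem_RE_false] at hE
        rcases he with ⟨h, _⟩ | h | ⟨h, _⟩
        · exact absurd h (by simp)
        · omega
        · exact absurd h (by simp)
      · rw [mem_RE_true] at hE
        rcases he with h | ⟨h, _⟩ | h
        · omega
        · exact absurd h (by simp)
        · omega
    · have k1 : ((c.1 - r : ℤ) : ℝ) ≤ v.1 := by
        push_cast; rw [rR, hc]; simp only; linarith
      have k2 : (v.1 : ℝ) ≤ ((c.1 + r : ℤ) : ℝ) := by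
        push_cast; rw [rR, hc]; simp only; linarith
      have k3 : ((c.2 - r : ℤ) : ℝ) ≤ v.2 := by
        push_cast; rw [rR, hc]; simp only; push_cast; linarith
      have k4 : (v.2 : ℝ) ≤ ((c.2 + r : ℤ) : ℝ) := by
        push_cast; rw [rR, hc]; simp only; push_cast; linarith
      exact ⟨⟨by exact_mod_cast k1, by exact_mod_cast k2⟩, ⟨by exact_mod_cast k3,
        by exact_mod_cast k4⟩⟩
    · -- the far vertex
      have hδm : ∀ x y : ℝ, δ * x ≤ δ * y → x ≤ y := fun x y h => le_of_mul_le_mul_left h hδ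
      have ezr : δ * (z.re / δ) = z.re := mul_div_cancel₀ _ hδ.ne'
      have ezi : δ * (z.im / δ) = z.im := mul_div_cancel₀ _ hδ.ne'
      have eρ : δ * (ρ / δ) = ρ := mul_div_cancel₀ _ hδ.ne'
      have hout : ρ < |w'.re - z.re| ∨ ρ < |w'.im - z.im| := by
        by_contra hcon
        push Not at hcon
        exact hw2' hcon
      rcases hout with ho | ho
      · rcases lt_abs.1 ho with ho | ho
        · right; left
          have t1 : z.re / δ + ρ / δ - 1 ≤ (v'.1 : ℝ) := by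
            apply hδm
            rw [mul_sub, mul_add, ezr, eρ]
            linarith
          have : ((c.1 + n : ℤ) : ℝ) ≤ v'.1 := by
            push_cast; rw [nR, hc]; simp only; linarith
          exact_mod_cast this
        · left
          have t1 : (v'.1 : ℝ) ≤ z.re / δ - ρ / δ + 1 := by
            apply hδm
            rw [mul_add, mul_sub, ezr, eρ]
            linarith
          have : (v'.1 : ℝ) ≤ ((c.1 - n : ℤ) : ℝ) := by
            push_cast; rw [nR, hc]; simp only; linarith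
          exact_mod_cast this
      · rcases lt_abs.1 ho with ho | ho
        · right; right; right
          have t1 : z.im / δ + ρ / δ - 1 ≤ (v'.2 : ℝ) + 1 := by
            apply hδm
            rw [mul_sub, mul_add, ezi, eρ]
            linarith
          have : ((c.2 + n : ℤ) : ℝ) ≤ v'.2 := by
            push_cast; rw [nR, hc]; simp only; push_cast; linarith
          exact_mod_cast this
        · right; right; left
          have t1 : (v'.2 : ℝ) + 1 ≤ z.im / δ - ρ / δ + 1 := by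
            apply hδm
            have e0 : δ * (z.im / δ - ρ / δ + 1) = z.im - ρ + δ := by
              rw [mul_add, mul_sub, ezi, eρ, mul_one]
            rw [e0]
            linarith
          have : (v'.2 : ℝ) ≤ ((c.2 - n : ℤ) : ℝ) := by
            push_cast; rw [nR, hc]; simp only; push_cast; linarith
          exact_mod_cast this
  have hn0 : (0 : ℝ) < n := by rw [nR]; linarith
  have hr0 : (0 : ℝ) < r := by rw [rR]; linarith
  have e1 : (r : ℝ) / n ≤ 4 * (s / ρ) := by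
    rw [div_le_iff₀ hn0]
    have e2 : 4 * (s / ρ) * n = 4 * ((s / δ) / (ρ / δ)) * n := by
      field_simp
    rw [e2]
    have e3 : (0 : ℝ) < ρ / δ := by positivity
    have e4 : (ρ / δ) / 2 ≤ n := by rw [nR]; linarith
    have e5 : 4 * ((s / δ) / (ρ / δ)) * ((ρ / δ) / 2) = 2 * (s / δ) := by field_simp; ring
    have e6 : 4 * ((s / δ) / (ρ / δ)) * ((ρ / δ) / 2) ≤ 4 * ((s / δ) / (ρ / δ)) * n :=
      mul_le_mul_of_nonneg_left e4 (by positivity)
    rw [rR]
    linarith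
  exact ⟨c, r, n, rfl, by rw [nR]; linarith, by omega, hrn, e1, hev⟩


/-- Disjoint boxes. -/
theorem boxes {ι : Type*} [DecidableEq ι] (s : Finset ι) (S : Finset Edg) (c : ι → Vtx)
    (r n : ι → ℕ)
    (hd : ∀ i ∈ s, ∀ j ∈ s, i ≠ j → Disjoint (bo (c i) (n i)) (bo (c j) (n j))) :
    Pr P S (fun F => ∀ i ∈ s, Ex1 (c i) (r i) (n i) F) ≤
      ∏ i ∈ s, barm (1 / 2) (r i) (n i) := by
  induction s using Finset.induction_on generalizing S with
  | empty =>
    simp only [Finset.prod_empty]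
    exact Pr_le_one Quad.okP _ _
  | insert a s ha ih =>
    have ih' := fun S' => ih S' (fun i hi j hj hij =>
      hd i (Finset.mem_insert_of_mem hi) j (Finset.mem_insert_of_mem hj) hij)
    set Y : Finset Edg := s.biUnion (fun i => bo (c i) (n i)) with hY
    have hdis : Disjoint (bo (c a) (n a)) Y := by
      rw [hY, Finset.disjoint_biUnion_right]
      intro i hi
      apply hd a (Finset.mem_insert_self a s) i (Finset.mem_insert_of_mem hi)
      rintro rfl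
      exact ha hi
    have hinc : IncA (fun F => ∀ i ∈ s, Ex1 (c i) (r i) (n i) F) := fun F G h hF i hi =>
      Ex1_inc _ _ _ F G h (hF i hi)
    have hloc : LocE Y (fun F => ∀ i ∈ s, Ex1 (c i) (r i) (n i) F) := by
      intro F
      refine forall₂_congr fun i hi => ?_
      exact Ex1_loc' (Finset.subset_biUnion_of_mem (fun i => bo (c i) (n i)) hi) F
    have h1 := indep2 S (bo (c a) (n a)) Y hdis (A := Ex1 (c a) (r a) (n a))
      (B := fun F => ∀ i ∈ s, Ex1 (c i) (r i) (n i) F) (Ex1_inc _ _ _) hinc (Ex1_loc _ _ _) hloc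
    have e1 : Pr P S (fun F => ∀ i ∈ insert a s, Ex1 (c i) (r i) (n i) F) =
        Pr P S (fun F => Ex1 (c a) (r a) (n a) F ∧ ∀ i ∈ s, Ex1 (c i) (r i) (n i) F) := by
      apply Pr_congr
      intro F _
      rw [Finset.forall_mem_insert]
    rw [e1, Finset.prod_insert ha]
    refine h1.trans ?_
    exact mul_le_mul (pr_Ex1 _ _ _ _) (ih' Y) (Pr_nonneg Quad.okP _ _)
      (barm_nonneg (by norm_num) (by norm_num) _ _)

/-- Separated points have separated boxes. -/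
theorem far {z w : ℂ} {δ ρ ρ' : ℝ} (hδ : 0 < δ) {n n' : ℕ} (hn : (n : ℝ) ≤ ρ / δ)
    (hn' : (n' : ℝ) ≤ ρ' / δ) (h1 : δ ≤ ρ) (h2 : δ ≤ ρ') (h : 16 * ρ + 16 * ρ' ≤ dist z w) :
    n + n' + 1 ≤ nv (((⌊z.re / δ⌋, ⌊z.im / δ⌋ - 1) : Vtx) - ((⌊w.re / δ⌋, ⌊w.im / δ⌋ - 1) : Vtx)) := by
  have hρ : 1 ≤ ρ / δ := by rw [le_div_iff₀ hδ]; linarith
  have hρ' : 1 ≤ ρ' / δ := by rw [le_div_iff₀ hδ]; linarith
  have h3 : dist z w ≤ |z.re - w.re| + |z.im - w.im| := by
    rw [Complex.dist_eq]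
    refine (Complex.norm_le_abs_re_add_abs_im _).trans ?_
    rw [Complex.sub_re, Complex.sub_im]
  have f1 : (⌊z.re / δ⌋ : ℝ) ≤ z.re / δ := Int.floor_le _
  have f2 : z.re / δ < (⌊z.re / δ⌋ : ℝ) + 1 := Int.lt_floor_add_one _
  have f3 : (⌊z.im / δ⌋ : ℝ) ≤ z.im / δ := Int.floor_le _
  have f4 : z.im / δ < (⌊z.im / δ⌋ : ℝ) + 1 := Int.lt_floor_add_one _
  have g1 : (⌊w.re / δ⌋ : ℝ) ≤ w.re / δ := Int.floor_le _
  have g2 : w.re / δ < (⌊w.re / δ⌋ : ℝ) + 1 := Int.lt_floor_add_one _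
  have g3 : (⌊w.im / δ⌋ : ℝ) ≤ w.im / δ := Int.floor_le _
  have g4 : w.im / δ < (⌊w.im / δ⌋ : ℝ) + 1 := Int.lt_floor_add_one _
  have h4 : 16 * (ρ / δ) + 16 * (ρ' / δ) ≤ |z.re / δ - w.re / δ| + |z.im / δ - w.im / δ| := by
    have e1 : |z.re / δ - w.re / δ| = |z.re - w.re| / δ := by
      rw [← sub_div, abs_div, abs_of_pos hδ]
    have e2 : |z.im / δ - w.im / δ| = |z.im - w.im| / δ := by
      rw [← sub_div, abs_div, abs_of_pos hδ]
    rw [e1, e2, ← add_div, ← mul_div_assoc, ← mul_div_assoc, ← add_div]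
    exact div_le_div_of_nonneg_right (h.trans h3) hδ.le
  unfold nv
  simp only [Prod.fst_sub, Prod.snd_sub]
  have h5 : 8 * (ρ / δ) + 8 * (ρ' / δ) ≤ |z.re / δ - w.re / δ| ∨
      8 * (ρ / δ) + 8 * (ρ' / δ) ≤ |z.im / δ - w.im / δ| := by
    by_contra hcon
    push Not at hcon
    linarith [hcon.1, hcon.2]
  rcases h5 with h5 | h5
  · refine le_trans ?_ (le_max_left _ _)
    have h6 : ((n + n' + 1 : ℕ) : ℤ) ≤ |⌊z.re / δ⌋ - ⌊w.re / δ⌋| := by
      have h7 : ((n + n' + 1 : ℕ) : ℝ) ≤ |(⌊z.re / δ⌋ : ℝ) - ⌊w.re / δ⌋| := by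
        push_cast
        rcases le_abs.mp h5 with h | h
        · exact le_abs.mpr (Or.inl (by linarith))
        · exact le_abs.mpr (Or.inr (by linarith))
      exact_mod_cast h7
    rw [Int.abs_eq_natAbs] at h6
    omega
  · refine le_trans ?_ (le_max_right _ _)
    have h6 : ((n + n' + 1 : ℕ) : ℤ) ≤ |⌊z.im / δ⌋ - 1 - (⌊w.im / δ⌋ - 1)| := by
      have h7 : ((n + n' + 1 : ℕ) : ℝ) ≤ |(⌊z.im / δ⌋ : ℝ) - 1 - (⌊w.im / δ⌋ - 1)| := by
        push_cast
        rcases le_abs.mp h5 with h | h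
        · exact le_abs.mpr (Or.inl (by linarith))
        · exact le_abs.mpr (Or.inr (by linarith))
      exact_mod_cast h7
    rw [Int.abs_eq_natAbs] at h6
    omega

/-- The many-point bound at mesh `δ`. -/
theorem mesh (hAr : ArS) : ∃ C : ℝ, 0 < C ∧ ∀ (R : Rect) (s : Finset ℕ) (z : ℕ → ℂ) (ρ : ℕ → ℝ)
    (t δ : ℝ), 0 < t → (∀ i ∈ s, 16 * t ≤ ρ i) → (∀ i ∈ s, csq (z i) (ρ i) ⊆ R.D) → 0 < δ →
    16 * δ ≤ t → (∀ i ∈ s, ∀ j ∈ s, i ≠ j → 16 * ρ i + 16 * ρ j ≤ dist (z i) (z j)) →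
    Pr P (R.edges δ) (fun F => ∀ i ∈ s, ((coll R δ F : Set (NonemptyCompacts ℂ)) ∩
      Vc (z i) t (ρ i)).Nonempty) ≤ ∏ i ∈ s, C * (t / ρ i) ^ ((5 : ℝ) / 48) := by
  obtain ⟨C, hC, hb⟩ := barm_le hAr
  refine ⟨C * 4, by positivity, ?_⟩
  intro R s z ρ t δ ht htρ hD hδ hδt hsep
  classical
  have hdet := fun i (hi : i ∈ s) => cross_det' R (z i) (ρ i) t δ ht (htρ i hi) (hD i hi) hδ hδt
  choose! c r n hc hn hr1 hrn hrat hev using hdet
  have hbox := boxes s (R.edges δ) c r n (fun i hi j hj hij => by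
    apply bo_disj
    rw [hc i hi, hc j hj]
    have k1 := htρ i hi
    have k2 := htρ j hj
    exact far hδ (hn i hi) (hn j hj) (by linarith) (by linarith) (hsep i hi j hj hij))
  refine le_trans (Pr_mono w_ok ?_) (hbox.trans ?_)
  · intro F _ hF i hi
    obtain ⟨L, hL1, hL2⟩ := hF i hi
    obtain ⟨v, hv⟩ := mem_coll hL1
    rw [hv] at hL2
    obtain ⟨⟨w, hw1, hw2⟩, ⟨w', hw1', hw2'⟩⟩ := hL2
    obtain ⟨u, hu, hu1⟩ := csetAt_near R hδ.le hw1
    obtain ⟨u', hu', hu1'⟩ := csetAt_near R hδ.le hw1'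
    exact hev i hi F u u' w w' hw2 hw2' hu1 hu1' (Reach.trans (Reach.symm hu) hu')
  · refine Finset.prod_le_prod (fun i _ => barm_nonneg (by norm_num) (by norm_num) _ _)
      (fun i hi => ?_)
    have hρ : 0 < ρ i := by have := htρ i hi; linarith
    refine (hb (r i) (n i) (hr1 i hi) (hrn i hi)).trans ?_
    rw [mul_assoc]
    apply mul_le_mul_of_nonneg_left _ hC.le
    calc ((r i : ℝ) / n i) ^ ((5 : ℝ) / 48) ≤ (4 * (t / ρ i)) ^ ((5 : ℝ) / 48) :=
          Real.rpow_le_rpow (by positivity) (hrat i hi) (by norm_num)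
      _ = 4 ^ ((5 : ℝ) / 48) * (t / ρ i) ^ ((5 : ℝ) / 48) :=
          Real.mul_rpow (by norm_num) (by positivity)
      _ ≤ 4 * (t / ρ i) ^ ((5 : ℝ) / 48) := by
          apply mul_le_mul_of_nonneg_right _ (by positivity)
          calc (4 : ℝ) ^ ((5 : ℝ) / 48) ≤ 4 ^ (1 : ℝ) :=
                Real.rpow_le_rpow_of_exponent_le (by norm_num) (by norm_num)
            _ = 4 := Real.rpow_one _

/-- [MCL] -/
theorem mcl (hAr : ArS) (R : Rect) {η : ℝ} (hη : 0 < η) {A : Set ℂ} (hA : IsCompact A)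
    (hAD : A ⊆ R.D) : ∃ C r1 s1 : ℝ, 0 < C ∧ 0 < r1 ∧ 0 < s1 ∧ ∀ (δ : ℕ → ℝ),
      (∀ i, 0 < δ i) → Tendsto δ atTop (𝓝 0) →
      ∀ μ : ProbabilityMeasure (NonemptyCompacts (NonemptyCompacts ℂ)),
        Tendsto (fun i => collLaw R (δ i)) atTop (𝓝 μ) →
        MPa (5 / 48) (μ : Measure (NonemptyCompacts (NonemptyCompacts ℂ))) (U η) A C r1 s1 := by
  obtain ⟨C0, hC0, hm⟩ := mesh hAr
  obtain ⟨s0, hs0, hth⟩ := hA.exists_thickening_subset_open (isOpen_D R) hAD
  have hball : ∀ z ∈ A, Metric.ball z s0 ⊆ R.D := fun z hz =>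
    (Metric.ball_subset_thickening hz s0).trans hth
  refine ⟨C0 * 32 + 512, 1, min s0 η, by positivity, one_pos, lt_min hs0 hη, ?_⟩
  intro δ hδ hlim μ hμ s z ρ r hr _ hzA hρ hsep
  set s' : Finset ℕ := s.filter (fun i => 512 * r ≤ ρ i) with hs'
  have hmem : ∀ i ∈ s', i ∈ s ∧ 512 * r ≤ ρ i := fun i hi => Finset.mem_filter.mp hi
  -- the open event
  have ho : IsOpen (⋂ i ∈ s', {𝒞 : NonemptyCompacts (NonemptyCompacts ℂ) |
      ((𝒞 : Set (NonemptyCompacts ℂ)) ∩ Vc (z i) (2 * r) (ρ i / 16)).Nonempty}) :=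
    isOpen_biInter_finset fun i _ =>
      NonemptyCompacts.isOpen_inter_nonempty_of_isOpen (isOpen_Vc _ _ _)
  have hsub : (⋂ i ∈ s, Pool.Agent.Helper20K9.UL.Hit (U η) (z i) r) ⊆
      ⋂ i ∈ s', {𝒞 : NonemptyCompacts (NonemptyCompacts ℂ) |
        ((𝒞 : Set (NonemptyCompacts ℂ)) ∩ Vc (z i) (2 * r) (ρ i / 16)).Nonempty} := by
    intro 𝒞 h𝒞
    rw [Set.mem_iInter₂] at h𝒞 ⊢
    intro i hi
    obtain ⟨hi1, hi2⟩ := hmem i hi
    obtain ⟨x, ⟨K, h1, h2, h3⟩, h4⟩ := h𝒞 i hi1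
    obtain ⟨p1, p2⟩ := hρ i hi1
    have p3 := p2.trans (min_le_right _ _)
    refine ⟨K, h1, ⟨x, h3, ?_⟩, ?_⟩
    · rw [mem_closedBall, Complex.dist_eq] at h4
      have k1 := (Complex.abs_re_le_norm (x - z i)).trans h4
      have k2 := (Complex.abs_im_le_norm (x - z i)).trans h4
      rw [Complex.sub_re] at k1
      rw [Complex.sub_im] at k2
      exact ⟨by linarith, by linarith⟩
    · by_contra hcon
      rw [Set.not_nonempty_iff_eq_empty] at hcon
      have hK : (K : Set ℂ) ⊆ csq (z i) (ρ i / 16) := by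
        intro y hy
        by_contra hy2
        have : y ∈ (K : Set ℂ) ∩ (csq (z i) (ρ i / 16))ᶜ := ⟨hy, hy2⟩
        rw [hcon] at this
        exact this
      have := csq_diam (by positivity) hK
      linarith
  -- its probability
  have h3 : (μ : Measure (NonemptyCompacts (NonemptyCompacts ℂ)))
      (⋂ i ∈ s', {𝒞 : NonemptyCompacts (NonemptyCompacts ℂ) |
        ((𝒞 : Set (NonemptyCompacts ℂ)) ∩ Vc (z i) (2 * r) (ρ i / 16)).Nonempty}) ≤
      ENNReal.ofReal (∏ i ∈ s', C0 * (2 * r / (ρ i / 16)) ^ ((5 : ℝ) / 48)) := by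
    refine (ProbabilityMeasure.le_liminf_measure_open_of_tendsto hμ ho).trans ?_
    apply Filter.liminf_le_of_frequently_le'
    apply Eventually.frequently
    filter_upwards [hlim.eventually_lt_const (show (0 : ℝ) < 2 * r / 16 by positivity)] with i hi
    rw [collLaw_apply _ _ ho.measurableSet]
    apply ENNReal.ofReal_le_ofReal
    refine le_trans (Pr_mono w_ok (fun F _ hF => ?_)) (hm R s' z (fun j => ρ j / 16) (2 * r) (δ i)
      (by positivity) (fun j hj => ?_) (fun j hj => ?_) (hδ i) (by linarith)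
      (fun j hj k hk hjk => ?_))
    · intro j hj
      exact Set.mem_iInter₂.mp hF j hj
    · have := (hmem j hj).2
      show 16 * (2 * r) ≤ ρ j / 16
      linarith
    · obtain ⟨hj1, hj2⟩ := hmem j hj
      refine Set.Subset.trans (csq_sub_ball (w := z j) (ε := s0) ?_) (hball _ (hzA j hj1))
      rw [sub_self, sub_self, abs_zero, zero_add]
      have p := (hρ j hj1).2.trans (min_le_left _ _)
      have p0 := (hρ j hj1).1
      linarith
    · have := hsep j (hmem j hj).1 k (hmem k hk).1 hjk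
      show 16 * (ρ j / 16) + 16 * (ρ k / 16) ≤ _
      linarith
  have hfin : 0 ≤ ∏ i ∈ s, (C0 * 32 + 512) * (r / ρ i) ^ ((5 : ℝ) / 48) := by
    apply Finset.prod_nonneg
    intro i hi
    have := (hρ i hi).1
    positivity
  apply ENNReal.toReal_le_of_le_ofReal hfin
  refine (measure_mono hsub).trans (h3.trans (ENNReal.ofReal_le_ofReal ?_))
  rw [hs', Finset.prod_filter]
  refine Finset.prod_le_prod (fun i hi => ?_) (fun i hi => ?_)
  · have := (hρ i hi).1
    split_ifs <;> positivity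
  · obtain ⟨p1, p2⟩ := hρ i hi
    have g0 : 0 ≤ (r / ρ i) ^ ((5 : ℝ) / 48) := by positivity
    split_ifs with hcase
    · have e : 2 * r / (ρ i / 16) = 32 * (r / ρ i) := by field_simp; ring
      rw [e, Real.mul_rpow (by norm_num) (by positivity)]
      have g1 : (32 : ℝ) ^ ((5 : ℝ) / 48) ≤ 32 := by
        calc (32 : ℝ) ^ ((5 : ℝ) / 48) ≤ 32 ^ (1 : ℝ) :=
              Real.rpow_le_rpow_of_exponent_le (by norm_num) (by norm_num)
          _ = 32 := Real.rpow_one _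
      calc C0 * (32 ^ ((5 : ℝ) / 48) * (r / ρ i) ^ ((5 : ℝ) / 48)) ≤
            C0 * (32 * (r / ρ i) ^ ((5 : ℝ) / 48)) := by gcongr
        _ ≤ _ := by nlinarith
    · push Not at hcase
      have g1 : 1 / 512 ≤ r / ρ i := by
        rw [div_le_div_iff₀ (by norm_num) p1]
        linarith
      have g2 : (1 / 512 : ℝ) ≤ (r / ρ i) ^ ((5 : ℝ) / 48) := by
        calc (1 / 512 : ℝ) = (1 / 512 : ℝ) ^ (1 : ℝ) := (Real.rpow_one _).symm
          _ ≤ (1 / 512 : ℝ) ^ ((5 : ℝ) / 48) :=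
              Real.rpow_le_rpow_of_exponent_ge (by norm_num) (by norm_num) (by norm_num)
          _ ≤ _ := Real.rpow_le_rpow (by norm_num) g1 (by norm_num)
      nlinarith

end Pool.Agent.Helper77K9.UL
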